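import Pool.Agent.H367.OS.FldP

/-!
# Frobenius semisimplicity for complete varieties and single pieces of one sequence of cubics

A relation `r` of size `m` is one of the equations `x_i x_j = x_l`, `x_i + x_j = x_l`, `x_i = 1` with
`i, j, l < m`; the relations are numbered, the number of `r` is `ν(r)` (`relNum`). Let `G_m` be the
following polynomial with integral coefficients (`univG ℤ m`). There are variables `x_i` and `z_ij` for
`i, j < m`, a variable `c_r` for every relation `r`, and variables `y_{r,l}` for all relations `r` and
`l < (m + 1) 2 ^ ν(r)`. The equations (`eqnG`) are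

  `z_ij - x_i x_j`,  `c_r ^ 2 - c_r`,  `c_r ρ_r`,  `(1 - c_r) y_{r,l}`,

where `ρ_r` is the linear polynomial `z_ij - x_l`, `x_i + x_j - x_l` or `x_i - 1` of the relation.
`G_m` is the sum of the equations multiplied by further variables `t_e`, one for each equation. It has
degree three. Let `C_m` be the affine cubic hypersurface `G_m = 1` (`cubG R m` over the ring `R`); it is
smooth over the integers.

Let `p` and `ℓ` be different prime numbers and `E` an algebraic closure of `ℚ_ℓ`. A module over the
polynomial ring `E[F]` is a vector space over `E` with an endomorphism `F`. For a variety `X` over a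
finite field `K` of characteristic `p` let `H K X i` be `H^i(X̄, E)` with the Frobenius endomorphism
of `X` over `K`. It is a semisimple module if and only if Frobenius acts semisimply; so `Semi H K X`
is question Q1 for `X` and `ℓ`.

For a separated scheme `X` of finite type over `𝔽_p` let `D.G w j X = Gr^W_w H^j_c(X̄, E)` be the part
of weight `w` of the cohomology with compact supports, with Frobenius; for smooth projective `Y` it is
`H^j(Ȳ)` if `j = w`, and zero otherwise. For complete `X` the cohomology `H^i(X̄, E)` is semisimple if
and only if its parts of the various weights are, as `H^i(X̄, E)` is the direct sum of its generalized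
eigenspaces. A complete variety `X` over a finite field `K` of characteristic `p` is a complete
variety over `𝔽_p`, its cohomology over `𝔽_p` is the induced module, and `F` is semisimple if and only
if its power is. This is the hypothesis `describes`.

**Theorem.** Let `E_m` be the number of the equations, and for `N ∈ ℕ` let `e = (m + 1) N + E_m - 1`
(`esh m N`).

(1) The following are equivalent: question Q1 has a positive answer for all complete varieties over all
finite fields of characteristic `p` (for `ℓ`); Frobenius acts semisimply on `H^i(Ȳ, E)` for all smooth
projective `Y` over `𝔽_p` and all `i`; for infinitely many `m` Frobenius acts semisimply on the single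
parts `Gr^W_{j-1} H^j_c(C_m)` for all `j`.

(2) The hypersurfaces `C_m` decide the statement for the pieces of the cohomology (`DecidesTwists`).
For every affine scheme `Spec B` of finite type over `𝔽_p` and all large `m` there is an `N` such that
for `0 ≤ w ≤ 2 m + 1` and all `j` the part `Gr^W_w H^j_c(Spec B)` is semisimple if and only if
`Gr^W_{w+2e} H^{j+2e+1}_c(C_m)` is. For every smooth projective `Y` over `𝔽_p`, every `d` and all
large `m` there is an `e'` such that for all `i ≤ d` Frobenius acts semisimply on `H^i(Ȳ, E)` if and
only if it does on the single part `Gr^W_{i+2e'} H^{i+2e'+1}_c(C_m)`. (The statement in the Lean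
includes the Tate twists, which do not matter for semisimplicity, see `IsPieces.semi_twist`.)

(3) `G_m` has integral coefficients and degree at most three, and `C_m` is smooth over all rings.

The hypotheses on the category and on the pieces are standard (`IsGeo`): exact sequences, affine
bundles, the cohomology of affine spaces, the weights of `H^j_c(X)` are between `0` and `2 dim X`,
`Gr^W_w H^j_c(X)` is a subquotient of `H^w(Y)` for some smooth projective `Y` (weight spectral
sequence), and every smooth projective scheme has an affine bundle whose total space is affine
(Jouanolou). The category need not be semisimple.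

Idea of the proof. The projection of `C_m` to the affine space with the coordinates `x, z, c, y` is an
affine bundle over the complement of the zero set `W_m` of the equations. The scheme `W_m` is the
disjoint union, over all sets `s` of relations (`c_r = 1` for `r ∈ s` and `c_r = 0` for the others), of
the products `X_s × 𝔸 ^ ((m + 1) N(s))`, where `X_s` is the affine scheme defined by the relations in
`s` and `N(s) = ∑_{r ∈ s} 2 ^ ν(r)`. The numbers `N(s)` are different, and the weights of the
cohomology of `X_s` are between `0` and `2 m`. So the part of weight `w + 2 (m + 1) N(s)`,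
`0 ≤ w ≤ 2 m + 1`, of the cohomology of `W_m` is the twist of the part of weight `w` of the cohomology of
`X_s`, and it is different from the weight of the cohomology of the affine space. Every affine scheme of
finite type over a prime field is an `X_s`, for all large `m`. The pieces of the cohomology of an
arbitrary scheme are direct factors of those of a disjoint union of affine schemes.

The universal system of relations is the one of helper854 (`Pool.Agent.H854.SQ`).
-/

set_option autoImplicit false

open CategoryTheory CategoryTheory.Limits AlgebraicGeometry Pool.Agent.Y116.UV Pool.Agent.Z125.UN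
  Pool.Agent.Q193.LT Pool.Agent.H854.SQ Pool.Agent.H367.OS Polynomial

namespace Pool.Agent.Results.MP_b685ef_ag.PiecesOfOneSequence

/-- Frobenius acts semisimply on `H^i(X̄)` for all `i`. -/
def Semi {E : Type} [Field E] (H : ∀ (K : Type) [Field K], Sch K → ℕ → ModuleCat.{0} E[X])
    (K : Type) [Field K] (X : Sch K) : Prop :=
  ∀ i : ℕ, IsSemisimpleModule E[X] (H K X i)

/-- **Frobenius semisimplicity for complete varieties and single pieces of one sequence of cubic
hypersurfaces over the integers.** See the explanations above. -/
theorem result {p ℓ : ℕ} [Fact p.Prime] [Fact ℓ.Prime] (_ : ℓ ≠ p)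
    {D : Pieces (ZMod p) (ModuleCat.{0} (AlgebraicClosure ℚ_[ℓ])[X])} (h : IsGeo D)
    {H : ∀ (K : Type) [Field K], Sch K → ℕ → ModuleCat.{0} (AlgebraicClosure ℚ_[ℓ])[X]}
    (describes : FromFp p Proper (fun K _ _ _ X => Semi H K X)
      fun Y => ∀ w j : ℤ, IsSemisimpleModule (AlgebraicClosure ℚ_[ℓ])[X] (D.G w j Y)) :
    (AllFp p Proper (fun K _ _ _ X => Semi H K X) ↔ ∃ᶠ m in Filter.atTop, ∀ j : ℕ,
      IsSemisimpleModule (AlgebraicClosure ℚ_[ℓ])[X] (D.G (j - 1) j (cubG (ZMod p) m))) ∧
    ((∀ Y : Sch (ZMod p), SmoothProj Y → ∀ i : ℕ,
        IsSemisimpleModule (AlgebraicClosure ℚ_[ℓ])[X] (D.G i i Y)) ↔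
      ∃ᶠ m in Filter.atTop, ∀ j : ℕ,
        IsSemisimpleModule (AlgebraicClosure ℚ_[ℓ])[X] (D.G (j - 1) j (cubG (ZMod p) m))) ∧
    DecidesTwists D (fun N => IsSemisimpleModule (AlgebraicClosure ℚ_[ℓ])[X] N) ∧
    ∀ m : ℕ, (univG ℤ m).totalDegree ≤ 3 ∧
      ∀ (R : Type) [CommRing R], MvPolynomial.map (Int.castRingHom R) (univG ℤ m) = univG R m ∧
        Smooth (cubG R m).hom := by
  have h0 : SemiObj = fun N : ModuleCat.{0} (AlgebraicClosure ℚ_[ℓ])[X] =>
      IsSemisimpleModule (AlgebraicClosure ℚ_[ℓ])[X] N := by
    funext N
    exact propext (semiObj_iff N)
  have hd := decides_twists (isPrimeField_zmod p) h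
    (semiObj_closed (A := ModuleCat.{0} (AlgebraicClosure ℚ_[ℓ])[X]))
  have h1 := semi_proper (isPrimeField_zmod p) h
  have h2 := (semi_tfae (isPrimeField_zmod p) h).out 1 0
  simp only [semiObj_iff] at h1 h2
  rw [h0] at hd
  exact ⟨describes.all.trans h1, h2, hd, cubG_facts⟩

end Pool.Agent.Results.MP_b685ef_ag.PiecesOfOneSequence
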